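import Pool.Agent.W685.PC.Hil
import Pool.Agent.W770.PC.Stms

set_option autoImplicit false

/-! M. Riesz' theorem on the Fourier side for smooth functions with compact support. -/

open MeasureTheory Set Filter Topology
open scoped ENNReal NNReal ComplexConjugate

namespace Pool.Agent.W685.PC

open Pool.Agent.W770.PC

theorem ee_eq (x y : ℝ) : ee (x * y) = Complex.exp (Complex.I * x * y) := by
  unfold ee
  push_cast
  congr 1
  ring

theorem ee_norm (x : ℝ) : ‖ee x‖ = 1 := by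
  unfold ee
  exact Complex.norm_exp_ofReal_mul_I x

theorem half_eq {φ : ℝ → ℂ} {R : ℝ} (hR : 0 ≤ R) (h0 : ∀ y, R ≤ |y| → φ y = 0) (x : ℝ) :
    ∫ y in Ici (0 : ℝ), φ y * ee (x * y) = FF φ R x := by
  rw [integral_Ici_eq_integral_Ioi]
  unfold FF
  rw [intervalIntegral.integral_of_le hR]
  simp only [ee_eq]
  refine setIntegral_eq_of_subset_of_forall_sdiff_eq_zero measurableSet_Ioi Ioc_subset_Ioi_self ?_
  rintro y ⟨hy1, hy2⟩
  have hy1' : 0 < y := hy1
  have : R ≤ |y| := by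
    rw [abs_of_pos hy1']
    by_contra hcon
    exact hy2 ⟨hy1', (not_le.1 hcon).le⟩
  rw [h0 y this, zero_mul]

theorem conj_FF (φ : ℝ → ℂ) {R : ℝ} (hR : 0 ≤ R) (x : ℝ) :
    conj (FF (fun y => conj (φ (-y))) R x) = ∫ y in (-R)..0, φ y * ee (x * y) := by
  have h1 : ∫ y in (-R)..0, φ y * ee (x * y) = ∫ y in (0 : ℝ)..R, φ (-y) * ee (x * (-y)) := by
    have := intervalIntegral.integral_comp_neg (a := 0) (b := R) (fun y => φ y * ee (x * y))
    rw [this, neg_zero]
  rw [h1]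
  unfold FF
  rw [intervalIntegral.integral_of_le hR, intervalIntegral.integral_of_le hR, ← integral_conj]
  refine integral_congr_ae (Eventually.of_forall fun y => ?_)
  show conj (conj (φ (-y)) * Complex.exp (Complex.I * x * y)) = φ (-y) * ee (x * (-y))
  rw [map_mul, Complex.conj_conj, ee_eq, ← Complex.exp_conj]
  congr 2
  simp

theorem full_eq {φ : ℝ → ℂ} (hφ : Continuous φ) {R : ℝ} (hR : 0 ≤ R)
    (h0 : ∀ y, R ≤ |y| → φ y = 0) (x : ℝ) :
    ∫ y, φ y * ee (x * y) = FF φ R x + conj (FF (fun y => conj (φ (-y))) R x) := by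
  have hcont : Continuous fun y : ℝ => φ y * ee (x * y) := by
    simp only [ee_eq]
    fun_prop
  rw [conj_FF φ hR x, ← half_eq hR h0 x, half_eq hR h0 x]
  have h1 : FF φ R x = ∫ y in (0 : ℝ)..R, φ y * ee (x * y) := by
    unfold FF
    refine intervalIntegral.integral_congr fun y _ => ?_
    show φ y * Complex.exp (Complex.I * x * y) = φ y * ee (x * y)
    rw [ee_eq]
  rw [h1, add_comm, intervalIntegral.integral_add_adjacent_intervals
    (hcont.intervalIntegrable _ _) (hcont.intervalIntegrable _ _),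
    intervalIntegral.integral_of_le (by linarith)]
  symm
  refine setIntegral_eq_integral_of_forall_compl_eq_zero fun y hy => ?_
  have : R ≤ |y| := by
    by_contra hcon
    rw [not_le, abs_lt] at hcon
    exact hy ⟨hcon.1, hcon.2.le⟩
  rw [h0 y this, zero_mul]

theorem psi_smooth {φ : ℝ → ℂ} (hφ : ContDiff ℝ (⊤ : ℕ∞) φ) :
    ContDiff ℝ (⊤ : ℕ∞) (fun y => conj (φ (-y))) :=
  Complex.conjCLE.contDiff.comp (hφ.comp contDiff_neg)

theorem psi_supp {φ : ℝ → ℂ} {R : ℝ} (h0 : ∀ y, R ≤ |y| → φ y = 0) :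
    HasCompactSupport (fun y => conj (φ (-y))) := by
  refine HasCompactSupport.intro (isCompact_Icc (a := -R) (b := R)) fun y hy => ?_
  have : R ≤ |-y| := by
    rw [abs_neg]
    by_contra hcon
    rw [not_le, abs_lt] at hcon
    exact hy ⟨hcon.1.le, hcon.2.le⟩
  rw [h0 _ this, map_zero]

/-- the elementary bound for the perturbed function -/
theorem pert {ε M x : ℝ} (hε : 0 < ε) {a b : ℂ} (hb : ‖b‖ * (1 + |x|) ≤ M) :
    ‖a / (1 - Complex.I * ε * x) + conj (b / (1 - Complex.I * ε * x))‖ ≤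
      ‖a + conj b‖ + 2 * M * ε * (1 + (ε * x) ^ 2)⁻¹ := by
  set w : ℂ := 1 - Complex.I * ε * x with hw
  have hre : w.re = 1 := by simp [hw]
  have him : w.im = -(ε * x) := by simp [hw]
  have hns : Complex.normSq w = 1 + (ε * x) ^ 2 := by
    rw [Complex.normSq_apply, hre, him]; ring
  have hpos : 0 < 1 + (ε * x) ^ 2 := by positivity
  have hw0 : w ≠ 0 := by
    intro h
    rw [h, map_zero] at hns
    linarith
  have hcw0 : conj w ≠ 0 := by
    intro h
    exact hw0 ((map_eq_zero _).1 h)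
  have hw1 : 1 ≤ ‖w‖ := by
    have := Complex.abs_re_le_norm w
    rwa [hre, abs_one] at this
  have e1 : a / w + conj (b / w) = (a + conj b) / w + conj b * ((w - conj w) / (w * conj w)) := by
    rw [map_div₀]
    field_simp
    ring
  have e2 : w - conj w = -(2 * Complex.I * ε * x) := by
    rw [hw, map_sub, map_mul, map_mul, Complex.conj_I, Complex.conj_ofReal, Complex.conj_ofReal,
      map_one]
    ring
  have e3 : ‖w * conj w‖ = 1 + (ε * x) ^ 2 := by
    rw [Complex.mul_conj, Complex.norm_real, hns, Real.norm_eq_abs, abs_of_pos hpos]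
  have e4 : ‖w - conj w‖ = 2 * ε * |x| := by
    rw [e2, norm_neg, norm_mul, norm_mul, norm_mul, Complex.norm_I, Complex.norm_real,
      Complex.norm_real, Real.norm_eq_abs, Real.norm_eq_abs, abs_of_pos hε]
    norm_num
  rw [e1]
  refine (norm_add_le _ _).trans (add_le_add ?_ ?_)
  · rw [norm_div]
    exact div_le_self (norm_nonneg _) hw1
  · rw [norm_mul, norm_div, e3, e4, Complex.norm_conj, div_eq_mul_inv, ← mul_assoc]
    have h1 : ‖b‖ * (2 * ε * |x|) ≤ 2 * M * ε := by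
      have h2 : ‖b‖ * |x| ≤ M := by
        have := norm_nonneg b
        nlinarith
      calc ‖b‖ * (2 * ε * |x|) = (2 * ε) * (‖b‖ * |x|) := by ring
        _ ≤ (2 * ε) * M := by gcongr
        _ = _ := by ring
    exact mul_le_mul_of_nonneg_right h1 (by positivity)

theorem tail_int {p : ℝ} (hp : 1 < p) {M ε : ℝ} (hM : 0 ≤ M) (hε : 0 < ε) :
    ∫⁻ x : ℝ, ENNReal.ofReal (2 * M * ε * (1 + (ε * x) ^ 2)⁻¹) ^ p ≤
      ENNReal.ofReal ((2 * M) ^ p * Real.pi * ε ^ (p - 1)) := by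
  have h1 : ∀ x : ℝ, ENNReal.ofReal (2 * M * ε * (1 + (ε * x) ^ 2)⁻¹) ^ p ≤
      ENNReal.ofReal ((2 * M) ^ p * ε ^ p * (1 + (ε * x) ^ 2)⁻¹) := by
    intro x
    have hq : 0 < 1 + (ε * x) ^ 2 := by positivity
    rw [ENNReal.ofReal_rpow_of_nonneg (by positivity) (by linarith)]
    refine ENNReal.ofReal_le_ofReal ?_
    rw [Real.mul_rpow (by positivity) (by positivity), Real.mul_rpow (by positivity) hε.le]
    refine mul_le_mul_of_nonneg_left ?_ (by positivity)
    have h2 : (1 + (ε * x) ^ 2)⁻¹ ≤ 1 := inv_le_one_of_one_le₀ (by nlinarith [sq_nonneg (ε * x)])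
    calc ((1 + (ε * x) ^ 2)⁻¹) ^ p ≤ ((1 + (ε * x) ^ 2)⁻¹) ^ (1 : ℝ) :=
          Real.rpow_le_rpow_of_exponent_ge (by positivity) h2 hp.le
      _ = _ := Real.rpow_one _
  have h3 : Integrable fun x : ℝ => (1 + (ε * x) ^ 2)⁻¹ :=
    integrable_inv_one_add_sq.comp_mul_left' hε.ne'
  have h4 : ∫ x : ℝ, (1 + (ε * x) ^ 2)⁻¹ = ε⁻¹ * Real.pi := by
    have := Measure.integral_comp_mul_left (fun x : ℝ => (1 + x ^ 2)⁻¹) ε
    rw [this, integral_univ_inv_one_add_sq, abs_of_pos (inv_pos.2 hε), smul_eq_mul]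
  calc _ ≤ ∫⁻ x : ℝ, ENNReal.ofReal ((2 * M) ^ p * ε ^ p * (1 + (ε * x) ^ 2)⁻¹) :=
        lintegral_mono h1
    _ = ENNReal.ofReal (∫ x : ℝ, (2 * M) ^ p * ε ^ p * (1 + (ε * x) ^ 2)⁻¹) := by
        rw [ofReal_integral_eq_lintegral_ofReal (h3.const_mul _)]
        exact Eventually.of_forall fun x => by positivity
    _ = _ := by
        rw [integral_const_mul, h4]
        congr 1
        have : ε ^ p = ε ^ (p - 1) * ε := by
          rw [← Real.rpow_add_one hε.ne']; congr 1; ring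
        rw [this]
        field_simp

/-- the inequality for the half line `[0,∞)` -/
theorem half {p : ℝ} (hp : 1 < p) : ∃ C : ℝ≥0∞, C ≠ ⊤ ∧ ∀ φ : ℝ → ℂ,
    ContDiff ℝ (⊤ : ℕ∞) φ → HasCompactSupport φ →
    ∫⁻ x : ℝ, ‖∫ y in Ici (0 : ℝ), φ y * ee (x * y)‖ₑ ^ p ≤
      C * ∫⁻ x : ℝ, ‖∫ y, φ y * ee (x * y)‖ₑ ^ p := by
  obtain ⟨C, hCt, hC⟩ := key hp
  have hp1 : (1 : ℝ) ≤ p := hp.le
  have hp0 : (0 : ℝ) ≤ p := by linarith
  have h2t : (2 : ℝ≥0∞) ^ (p - 1) ≠ ⊤ := ENNReal.rpow_ne_top_of_nonneg (by linarith) (by simp)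
  refine ⟨C * 2 ^ (p - 1), ENNReal.mul_ne_top hCt h2t, fun φ hφ hc => ?_⟩
  obtain ⟨R, hR, h0⟩ : ∃ R : ℝ, 0 ≤ R ∧ ∀ y, R ≤ |y| → φ y = 0 := by
    obtain ⟨r, hr⟩ := hc.isCompact.isBounded.subset_closedBall (0 : ℝ)
    refine ⟨max r 0 + 1, by positivity, fun y hy => ?_⟩
    refine image_eq_zero_of_notMem_tsupport fun hy' => ?_
    have h1 := hr hy'
    rw [Metric.mem_closedBall, dist_zero_right, Real.norm_eq_abs] at h1
    have := le_max_left r 0
    linarith
  have hφR : φ R = 0 := h0 R (le_abs_self R)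
  set ψ : ℝ → ℂ := fun y => conj (φ (-y)) with hψ
  have hψs : ContDiff ℝ (⊤ : ℕ∞) ψ := psi_smooth hφ
  have hψc : HasCompactSupport ψ := psi_supp h0
  have hψR : ψ R = 0 := by
    rw [hψ]
    simp only
    rw [h0 (-R) (by rw [abs_neg]; exact le_abs_self R), map_zero]
  obtain ⟨M, hM0, hM⟩ := FF_bound hψs hψc hR hψR
  simp only [half_eq hR h0, full_eq hφ.continuous hR h0]
  set U : ℝ≥0∞ := ∫⁻ x : ℝ, ‖FF φ R x + conj (FF ψ R x)‖ₑ ^ p with hU
  have hcφ : Continuous fun x : ℝ => FF φ R x :=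
    (show Differentiable ℂ (FF φ R) from fun z =>
      (FF_deriv hφ.continuous R z).differentiableAt).continuous.comp Complex.continuous_ofReal
  have hcψ : Continuous fun x : ℝ => FF ψ R x :=
    (show Differentiable ℂ (FF ψ R) from fun z =>
      (FF_deriv hψs.continuous R z).differentiableAt).continuous.comp Complex.continuous_ofReal
  have main : ∀ ε : ℝ, 0 < ε → ε ≤ 1 →
      ∫⁻ x : ℝ, ‖FF φ R x / (1 - Complex.I * ε * x)‖ₑ ^ p ≤
        C * (2 ^ (p - 1) * (U + ENNReal.ofReal ((2 * M) ^ p * Real.pi * ε ^ (p - 1)))) := by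
    intro ε hε hε1
    refine (hC _ _ (HC_FF hφ hc hR hφR hε hε1) (HC_FF hψs hψc hR hψR hε hε1)).trans ?_
    refine mul_le_mul_right ?_ C
    have hm : Measurable fun x : ℝ => ‖FF φ R x + conj (FF ψ R x)‖ₑ ^ p :=
      ((hcφ.add (Complex.continuous_conj.comp hcψ)).measurable.enorm).pow_const p
    calc ∫⁻ x : ℝ, ‖FF φ R x / (1 - Complex.I * ε * x) +
          conj (FF ψ R x / (1 - Complex.I * ε * x))‖ₑ ^ p
        ≤ ∫⁻ x : ℝ, 2 ^ (p - 1) * (‖FF φ R x + conj (FF ψ R x)‖ₑ ^ p +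
          ENNReal.ofReal (2 * M * ε * (1 + (ε * x) ^ 2)⁻¹) ^ p) := by
          refine lintegral_mono fun x => ?_
          have hbx := hM x (by simp)
          rw [Complex.norm_real, Real.norm_eq_abs] at hbx
          have h1 := pert (a := FF φ R x) hε hbx
          have h2 : ‖FF φ R x / (1 - Complex.I * ε * x) +
              conj (FF ψ R x / (1 - Complex.I * ε * x))‖ₑ ≤ ‖FF φ R x + conj (FF ψ R x)‖ₑ +
              ENNReal.ofReal (2 * M * ε * (1 + (ε * x) ^ 2)⁻¹) := by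
            rw [← ofReal_norm, ← ofReal_norm,
              ← ENNReal.ofReal_add (norm_nonneg _) (by positivity)]
            exact ENNReal.ofReal_le_ofReal h1
          exact (ENNReal.rpow_le_rpow h2 hp0).trans (ENNReal.rpow_add_le_mul_rpow_add_rpow _ _ hp1)
      _ = 2 ^ (p - 1) * (U + ∫⁻ x : ℝ, ENNReal.ofReal (2 * M * ε * (1 + (ε * x) ^ 2)⁻¹) ^ p) := by
          rw [lintegral_const_mul' _ _ h2t, lintegral_add_left hm]
      _ ≤ _ := by
          gcongr
          exact tail_int hp hM0 hε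
  -- the limit `ε → 0`
  set e : ℕ → ℝ := fun n => 1 / ((n : ℝ) + 1) with he
  have he0 : ∀ n, 0 < e n := fun n => by rw [he]; positivity
  have he1 : ∀ n, e n ≤ 1 := fun n => by
    rw [he]
    simp only
    rw [div_le_one (by positivity)]
    have : (0 : ℝ) ≤ n := Nat.cast_nonneg n
    linarith
  have hel : Tendsto e atTop (𝓝 0) := tendsto_one_div_add_atTop_nhds_zero_nat
  have hlim : ∀ x : ℝ, Tendsto (fun n => ‖FF φ R x / (1 - Complex.I * (e n : ℝ) * x)‖ₑ ^ p) atTop
      (𝓝 (‖FF φ R x‖ₑ ^ p)) := by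
    intro x
    have h1 : Tendsto (fun n => (1 : ℂ) - Complex.I * (e n : ℝ) * x) atTop (𝓝 1) := by
      have h2 : Tendsto (fun n => ((e n : ℝ) : ℂ)) atTop (𝓝 ((0 : ℝ) : ℂ)) :=
        (Complex.continuous_ofReal.tendsto _).comp hel
      have h3 := (((h2.const_mul Complex.I).mul_const (x : ℂ))).const_sub (1 : ℂ)
      simpa using h3
    have h4 : Tendsto (fun n => FF φ R x / (1 - Complex.I * (e n : ℝ) * x)) atTop
        (𝓝 (FF φ R x)) := by
      have := (tendsto_const_nhds (x := FF φ R x)).div h1 one_ne_zero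
      rw [div_one] at this
      exact this
    exact (ENNReal.continuous_rpow_const.tendsto _).comp
      ((continuous_enorm.tendsto _).comp h4)
  have hmeas : ∀ n, Measurable fun x : ℝ => ‖FF φ R x / (1 - Complex.I * (e n : ℝ) * x)‖ₑ ^ p := by
    intro n
    refine (Measurable.enorm ?_).pow_const p
    refine hcφ.measurable.div ?_
    exact (by fun_prop : Continuous fun x : ℝ => (1 : ℂ) - Complex.I * (e n : ℝ) * x).measurable
  have hB : Tendsto (fun n => C * (2 ^ (p - 1) * (U + ENNReal.ofReal ((2 * M) ^ p * Real.pi *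
      (e n) ^ (p - 1))))) atTop (𝓝 (C * (2 ^ (p - 1) * (U + 0)))) := by
    have h1 : Tendsto (fun n => (e n) ^ (p - 1)) atTop (𝓝 0) := by
      have := hel.rpow_const (p := p - 1) (Or.inr (by linarith))
      rwa [Real.zero_rpow (by linarith)] at this
    have h2 : Tendsto (fun n => ENNReal.ofReal ((2 * M) ^ p * Real.pi * (e n) ^ (p - 1))) atTop
        (𝓝 0) := by
      have := ENNReal.tendsto_ofReal (h1.const_mul ((2 * M) ^ p * Real.pi))
      rwa [mul_zero, ENNReal.ofReal_zero] at this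
    exact ENNReal.Tendsto.const_mul (ENNReal.Tendsto.const_mul (tendsto_const_nhds.add h2)
      (Or.inr h2t)) (Or.inr hCt)
  calc ∫⁻ x : ℝ, ‖FF φ R x‖ₑ ^ p
      = ∫⁻ x : ℝ, liminf (fun n => ‖FF φ R x / (1 - Complex.I * (e n : ℝ) * x)‖ₑ ^ p) atTop := by
        refine lintegral_congr fun x => ?_
        exact (hlim x).liminf_eq.symm
    _ ≤ liminf (fun n => ∫⁻ x : ℝ, ‖FF φ R x / (1 - Complex.I * (e n : ℝ) * x)‖ₑ ^ p) atTop :=
        lintegral_liminf_le hmeas
    _ ≤ liminf (fun n => C * (2 ^ (p - 1) * (U + ENNReal.ofReal ((2 * M) ^ p * Real.pi *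
          (e n) ^ (p - 1))))) atTop := by
        refine liminf_le_liminf (Eventually.of_forall fun n => ?_)
        exact main (e n) (he0 n) (he1 n)
    _ = C * (2 ^ (p - 1) * (U + 0)) := hB.liminf_eq
    _ = C * 2 ^ (p - 1) * U := by rw [add_zero, mul_assoc]

theorem riesz_thm : S_riesz := by
  intro p hp
  obtain ⟨C, hCt, hC⟩ := half hp
  refine ⟨C.toReal, ENNReal.toReal_nonneg, fun φ hφ hc c => ?_⟩
  rw [ENNReal.ofReal_toReal hCt]
  have hs : ContDiff ℝ (⊤ : ℕ∞) (fun y => φ (y + c)) := hφ.comp (contDiff_id.add contDiff_const)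
  have hcs : HasCompactSupport (fun y => φ (y + c)) := hc.comp_homeomorph (Homeomorph.addRight c)
  have h := hC _ hs hcs
  have hsh : ∀ x y : ℝ, φ (y + c) * ee (x * (y + c)) = ee (x * c) * (φ (y + c) * ee (x * y)) := by
    intro x y
    have : ee (x * (y + c)) = ee (x * c) * ee (x * y) := by
      unfold ee
      rw [← Complex.exp_add]
      congr 1
      push_cast
      ring
    rw [this]; ring
  have hn : ∀ x : ℝ, ‖ee (x * c)‖ₑ = 1 := by
    intro x
    rw [← ofReal_norm, ee_norm, ENNReal.ofReal_one]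
  have e1 : ∀ x : ℝ, ‖∫ y in Ici c, φ y * ee (x * y)‖ₑ =
      ‖∫ y in Ici (0 : ℝ), φ (y + c) * ee (x * y)‖ₑ := by
    intro x
    have h1 : ∫ y in Ici c, φ y * ee (x * y) =
        ∫ y in Ici (0 : ℝ), φ (y + c) * ee (x * (y + c)) := by
      rw [← integral_indicator measurableSet_Ici, ← integral_indicator measurableSet_Ici,
        ← integral_add_right_eq_self _ c]
      refine integral_congr_ae (Eventually.of_forall fun y => ?_)
      simp only [indicator, mem_Ici]
      have : c ≤ y + c ↔ 0 ≤ y := by constructor <;> intro h <;> linarith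
      simp only [this]
    rw [h1]
    simp only [hsh]
    rw [integral_const_mul, enorm_mul, hn, one_mul]
  have e2 : ∀ x : ℝ, ‖∫ y, φ y * ee (x * y)‖ₑ = ‖∫ y, φ (y + c) * ee (x * y)‖ₑ := by
    intro x
    have h1 : ∫ y, φ y * ee (x * y) = ∫ y, φ (y + c) * ee (x * (y + c)) :=
      (integral_add_right_eq_self (fun y => φ y * ee (x * y)) c).symm
    rw [h1]
    simp only [hsh]
    rw [integral_const_mul, enorm_mul, hn, one_mul]
  simp only [e1, e2]
  exact h

end Pool.Agent.W685.PC
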