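import Pool.Agent.W685.PC.Hol
import Pool.Agent.Helper458.Dav.P_hilbert_rep
import Pool.Agent.W755.MzFin

set_option autoImplicit false

/-! The `L^p` inequality for half line Fourier integrals. -/

open MeasureTheory Set Filter Topology
open scoped ENNReal NNReal ComplexConjugate

namespace Pool.Agent.W685.PC

/-- the `L^p` theorem for the Hilbert transform -/
theorem hilLp {p : ℝ} (hp : 1 < p) : ∃ C : ℝ≥0, ∀ f : ℝ → ℝ, Integrable f →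
    ∫⁻ x, ENNReal.ofReal (|Pool.Agent.W755.Mz.hilbert f x| ^ p) ≤
      C * ∫⁻ x, ENNReal.ofReal (|f x| ^ p) := by
  have hK : Pool.Agent.W755.Mz.ApC p (fun _ => (1 : ℝ)) 1 := by
    intro a b hab
    have h0 : ENNReal.ofReal (b - a) ≠ 0 := (ENNReal.ofReal_pos.2 (by linarith)).ne'
    have h1 : (ENNReal.ofReal (b - a))⁻¹ * ∫⁻ _ in Ioo a b, (1 : ℝ≥0∞) = 1 := by
      rw [setLIntegral_one, Real.volume_Ioo, ENNReal.inv_mul_cancel h0 ENNReal.ofReal_ne_top]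
    simp only [ENNReal.ofReal_one, ENNReal.one_rpow, h1, mul_one, ENNReal.coe_one, le_refl]
  obtain ⟨C, hC⟩ := Pool.Agent.W755.Mz.suf_a (p := p) hp (W := fun _ => (1 : ℝ)) measurable_const
    (Eventually.of_forall fun _ => one_pos) hK (fun _ => zero_le_one)
  refine ⟨C, fun f hf => ?_⟩
  have := hC f hf
  simpa only [ENNReal.ofReal_one, mul_one] using this

theorem trunc_ofReal (f : ℝ → ℝ) (δ x : ℝ) :
    Pool.Dav.truncH (fun t => ((f t : ℝ) : ℂ)) δ x =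
      ((Pool.Agent.W755.Mz.truncH f δ x : ℝ) : ℂ) := by
  unfold Pool.Dav.truncH Pool.Agent.W755.Mz.truncH
  push_cast
  congr 1
  have : {y : ℝ | δ < |x - y|} = {y : ℝ | δ < |y - x|} := by
    ext y
    show δ < |x - y| ↔ δ < |y - x|
    rw [abs_sub_comm]
  rw [this, ← integral_complex_ofReal]
  push_cast
  rfl

/-- the Hilbert transform of the real part -/
theorem hil_re {g : ℂ → ℂ} (hg : HC g) :
    ∀ᵐ x : ℝ, Pool.Agent.W755.Mz.hilbert (fun t : ℝ => (g t).re) x = (g x).im := by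
  obtain ⟨h1, h2, C, h3⟩ := hg
  filter_upwards [Pool.Dav.hilbert_rep g C h1 h2 h3] with x hx
  apply Pool.Agent.W755.Mz.hilbert_eq_of_tendsto
  have hx' : Tendsto (fun δ : ℝ => (Pool.Dav.truncH (fun t : ℝ => (((g t).re : ℝ) : ℂ)) δ x).re)
      (𝓝[>] (0 : ℝ)) (𝓝 ((((g x).im : ℝ) : ℂ)).re) :=
    (Complex.continuous_re.tendsto _).comp hx
  simpa only [trunc_ofReal, Complex.ofReal_re] using hx'

theorem re_int {g : ℂ → ℂ} (hg : HC g) : Integrable (fun t : ℝ => (g t).re) := by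
  obtain ⟨h1, h2, C, h3⟩ := hg
  exact Pool.Dav.hilbert_rep_integrable g C h2 h3

theorem en_abs (r p : ℝ) (hp : 0 ≤ p) : ENNReal.ofReal (|r| ^ p) = ‖r‖ₑ ^ p := by
  rw [Real.enorm_eq_ofReal_abs, ENNReal.ofReal_rpow_of_nonneg (abs_nonneg r) hp]

/-- `L^p` bound for the imaginary part by the real part -/
theorem im_le {p : ℝ} (hp : 1 < p) : ∃ C : ℝ≥0, ∀ g : ℂ → ℂ, HC g →
    ∫⁻ x : ℝ, ‖(g x).im‖ₑ ^ p ≤ C * ∫⁻ x : ℝ, ‖(g x).re‖ₑ ^ p := by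
  obtain ⟨C, hC⟩ := hilLp hp
  refine ⟨C, fun g hg => ?_⟩
  have h := hC _ (re_int hg)
  have hp0 : 0 ≤ p := by linarith
  simp only [en_abs _ _ hp0] at h
  refine le_trans (le_of_eq ?_) h
  refine lintegral_congr_ae ?_
  filter_upwards [hil_re hg] with x hx
  rw [hx]

/-- `L^p` bound for the modulus by the real part -/
theorem nm_le {p : ℝ} (hp : 1 < p) : ∃ C : ℝ≥0∞, C ≠ ⊤ ∧ ∀ g : ℂ → ℂ, HC g →
    ∫⁻ x : ℝ, ‖g x‖ₑ ^ p ≤ C * ∫⁻ x : ℝ, ‖(g x).re‖ₑ ^ p := by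
  obtain ⟨C, hC⟩ := im_le hp
  have hp1 : (1 : ℝ) ≤ p := hp.le
  refine ⟨2 ^ (p - 1) * (1 + C), ?_, fun g hg => ?_⟩
  · exact ENNReal.mul_ne_top (ENNReal.rpow_ne_top_of_nonneg (by linarith) (by simp)) (by simp)
  have h1 : ∀ x : ℝ, ‖g x‖ₑ ^ p ≤ 2 ^ (p - 1) * (‖(g x).re‖ₑ ^ p + ‖(g x).im‖ₑ ^ p) := by
    intro x
    have h2 : ‖g x‖ₑ ≤ ‖(g x).re‖ₑ + ‖(g x).im‖ₑ := by
      rw [← ofReal_norm, ← ofReal_norm, ← ofReal_norm,
        ← ENNReal.ofReal_add (norm_nonneg _) (norm_nonneg _)]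
      refine ENNReal.ofReal_le_ofReal ?_
      exact Complex.norm_le_abs_re_add_abs_im _
    exact (ENNReal.rpow_le_rpow h2 (by linarith)).trans
      (ENNReal.rpow_add_le_mul_rpow_add_rpow _ _ hp1)
  have hre : Measurable fun x : ℝ => ‖(g x).re‖ₑ ^ p :=
    ((Complex.continuous_re.comp hg.cont).measurable.enorm).pow_const p
  calc ∫⁻ x : ℝ, ‖g x‖ₑ ^ p ≤ ∫⁻ x : ℝ, 2 ^ (p - 1) * (‖(g x).re‖ₑ ^ p + ‖(g x).im‖ₑ ^ p) :=
        lintegral_mono h1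
    _ = 2 ^ (p - 1) * ((∫⁻ x : ℝ, ‖(g x).re‖ₑ ^ p) + (∫⁻ x : ℝ, ‖(g x).im‖ₑ ^ p)) := by
        rw [lintegral_const_mul' _ _ (ENNReal.rpow_ne_top_of_nonneg (by linarith) (by simp)),
          lintegral_add_left hre]
    _ ≤ 2 ^ (p - 1) * ((∫⁻ x : ℝ, ‖(g x).re‖ₑ ^ p) + C * (∫⁻ x : ℝ, ‖(g x).re‖ₑ ^ p)) := by
        gcongr
        exact hC g hg
    _ = _ := by ring

/-- the key inequality -/
theorem key {p : ℝ} (hp : 1 < p) : ∃ C : ℝ≥0∞, C ≠ ⊤ ∧ ∀ g h : ℂ → ℂ, HC g → HC h →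
    ∫⁻ x : ℝ, ‖g x‖ₑ ^ p ≤ C * ∫⁻ x : ℝ, ‖g x + conj (h x)‖ₑ ^ p := by
  obtain ⟨C, hCt, hC⟩ := nm_le hp
  have hp1 : (1 : ℝ) ≤ p := hp.le
  have hp0 : (0 : ℝ) ≤ p := by linarith
  refine ⟨2 ^ (p - 1) * (C + C), ?_, fun g h hg hh => ?_⟩
  · exact ENNReal.mul_ne_top (ENNReal.rpow_ne_top_of_nonneg (by linarith) (by simp))
      (ENNReal.add_ne_top.2 ⟨hCt, hCt⟩)
  have hG : HC (fun z => g z + h z) := hg.add hh
  have hD : HC (fun z => (-Complex.I) * (g z + (-1) * h z)) := (hg.add (hh.smul (-1))).smul _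
  have e1 : ∀ x : ℝ, ‖g x‖ₑ ^ p ≤ 2 ^ (p - 1) * (‖g x + h x‖ₑ ^ p +
      ‖(-Complex.I) * (g x + (-1) * h x)‖ₑ ^ p) := by
    intro x
    have h2 : ‖g x‖ₑ ≤ ‖g x + h x‖ₑ + ‖(-Complex.I) * (g x + (-1) * h x)‖ₑ := by
      rw [← ofReal_norm, ← ofReal_norm, ← ofReal_norm,
        ← ENNReal.ofReal_add (norm_nonneg _) (norm_nonneg _)]
      refine ENNReal.ofReal_le_ofReal ?_
      have h3 : g x = (1 / 2 : ℂ) * ((g x + h x) + Complex.I *
          ((-Complex.I) * (g x + (-1) * h x))) := by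
        linear_combination ((1 / 2 : ℂ) * (g x + (-1) * h x)) * Complex.I_mul_I
      calc ‖g x‖ = ‖(1 / 2 : ℂ) * ((g x + h x) + Complex.I *
          ((-Complex.I) * (g x + (-1) * h x)))‖ := by rw [← h3]
        _ = (1 / 2) * ‖(g x + h x) + Complex.I * ((-Complex.I) * (g x + (-1) * h x))‖ := by
          rw [norm_mul]; norm_num
        _ ≤ (1 / 2) * (‖g x + h x‖ + ‖Complex.I * ((-Complex.I) * (g x + (-1) * h x))‖) := by
          gcongr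
          exact norm_add_le _ _
        _ = (1 / 2) * (‖g x + h x‖ + ‖(-Complex.I) * (g x + (-1) * h x)‖) := by
          congr 2
          rw [norm_mul, Complex.norm_I, one_mul]
        _ ≤ _ := by
          have a1 := norm_nonneg (g x + h x)
          have a2 := norm_nonneg ((-Complex.I) * (g x + (-1) * h x))
          linarith
    exact (ENNReal.rpow_le_rpow h2 hp0).trans (ENNReal.rpow_add_le_mul_rpow_add_rpow _ _ hp1)
  have hm : Measurable fun x : ℝ => ‖g x + h x‖ₑ ^ p :=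
    ((hg.cont.add hh.cont).measurable.enorm).pow_const p
  have hu1 : ∫⁻ x : ℝ, ‖(g x + h x).re‖ₑ ^ p ≤ ∫⁻ x : ℝ, ‖g x + conj (h x)‖ₑ ^ p := by
    refine lintegral_mono fun x => ENNReal.rpow_le_rpow ?_ hp0
    have : (g x + h x).re = (g x + conj (h x)).re := by simp
    rw [this, ← ofReal_norm, ← ofReal_norm]
    exact ENNReal.ofReal_le_ofReal (Complex.abs_re_le_norm _)
  have hu2 : ∫⁻ x : ℝ, ‖((-Complex.I) * (g x + (-1) * h x)).re‖ₑ ^ p ≤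
      ∫⁻ x : ℝ, ‖g x + conj (h x)‖ₑ ^ p := by
    refine lintegral_mono fun x => ENNReal.rpow_le_rpow ?_ hp0
    have : ((-Complex.I) * (g x + (-1) * h x)).re = (g x + conj (h x)).im := by simp
    rw [this, ← ofReal_norm, ← ofReal_norm]
    exact ENNReal.ofReal_le_ofReal (Complex.abs_im_le_norm _)
  calc ∫⁻ x : ℝ, ‖g x‖ₑ ^ p ≤ ∫⁻ x : ℝ, 2 ^ (p - 1) * (‖g x + h x‖ₑ ^ p +
      ‖(-Complex.I) * (g x + (-1) * h x)‖ₑ ^ p) := lintegral_mono e1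
    _ = 2 ^ (p - 1) * ((∫⁻ x : ℝ, ‖g x + h x‖ₑ ^ p) +
        (∫⁻ x : ℝ, ‖(-Complex.I) * (g x + (-1) * h x)‖ₑ ^ p)) := by
        rw [lintegral_const_mul' _ _ (ENNReal.rpow_ne_top_of_nonneg (by linarith) (by simp)),
          lintegral_add_left hm]
    _ ≤ 2 ^ (p - 1) * (C * (∫⁻ x : ℝ, ‖g x + conj (h x)‖ₑ ^ p) +
        C * (∫⁻ x : ℝ, ‖g x + conj (h x)‖ₑ ^ p)) := by
        gcongr
        · exact (hC _ hG).trans (by gcongr)
        · exact (hC _ hD).trans (by gcongr)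
    _ = _ := by ring

end Pool.Agent.W685.PC
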