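import Mathlib

set_option autoImplicit false

/-! Half line Fourier integrals as boundary values of holomorphic functions. -/

open MeasureTheory Set Filter Topology
open scoped ENNReal NNReal

namespace Pool.Agent.W685.PC

/-- `∫_0^R φ(y) e^{izy} dy` -/
noncomputable def FF (φ : ℝ → ℂ) (R : ℝ) (z : ℂ) : ℂ :=
  ∫ y in (0 : ℝ)..R, φ y * Complex.exp (Complex.I * z * y)

theorem ex_norm {y : ℝ} {z : ℂ} (hy : 0 ≤ y) (hz : 0 ≤ z.im) :
    ‖Complex.exp (Complex.I * z * y)‖ ≤ 1 := by
  rw [Complex.norm_exp, Real.exp_le_one_iff]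
  have : (Complex.I * z * y).re = -(z.im * y) := by simp
  rw [this]
  have := mul_nonneg hz hy
  linarith

theorem ex_cont (z : ℂ) : Continuous fun y : ℝ => Complex.exp (Complex.I * z * y) := by fun_prop

theorem FF_deriv {φ : ℝ → ℂ} (hφ : Continuous φ) (R : ℝ) (z : ℂ) :
    HasDerivAt (FF φ R)
      (∫ y in (0 : ℝ)..R, φ y * (Complex.exp (Complex.I * z * y) * (Complex.I * y))) z := by
  refine (intervalIntegral.hasDerivAt_integral_of_dominated_loc_of_deriv_le
    (F := fun (z : ℂ) (y : ℝ) => φ y * Complex.exp (Complex.I * z * y))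
    (F' := fun (z : ℂ) (y : ℝ) => φ y * (Complex.exp (Complex.I * z * y) * (Complex.I * y)))
    (bound := fun y => ‖φ y‖ * (Real.exp ((‖z‖ + 1) * |y|) * |y|))
    (s := Metric.ball z 1) (Metric.ball_mem_nhds z one_pos) ?_ ?_ ?_ ?_ ?_ ?_).2
  · refine Eventually.of_forall fun w => ?_
    exact (hφ.mul (ex_cont w)).aestronglyMeasurable
  · exact (hφ.mul (ex_cont z)).intervalIntegrable _ _
  · have : Continuous fun y : ℝ => φ y * (Complex.exp (Complex.I * z * y) * (Complex.I * y)) := by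
      fun_prop
    exact this.aestronglyMeasurable
  · refine Eventually.of_forall fun y _ w hw => ?_
    have hw' : ‖w‖ ≤ ‖z‖ + 1 := by
      have h1 : ‖w - z‖ < 1 := by simpa [dist_eq_norm] using hw
      have h2 : ‖w‖ ≤ ‖w - z‖ + ‖z‖ := by
        calc ‖w‖ = ‖(w - z) + z‖ := by ring_nf
          _ ≤ _ := norm_add_le _ _
      linarith
    rw [norm_mul, norm_mul, norm_mul, Complex.norm_I, one_mul, Complex.norm_real, Real.norm_eq_abs]
    gcongr
    rw [Complex.norm_exp]
    refine Real.exp_le_exp.2 ?_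
    calc (Complex.I * w * y).re ≤ ‖Complex.I * w * y‖ := Complex.re_le_norm _
      _ = ‖w‖ * |y| := by
          rw [norm_mul, norm_mul, Complex.norm_I, one_mul, Complex.norm_real, Real.norm_eq_abs]
      _ ≤ _ := by gcongr
  · have : Continuous fun y : ℝ => ‖φ y‖ * (Real.exp ((‖z‖ + 1) * |y|) * |y|) := by fun_prop
    exact this.intervalIntegrable _ _
  · refine Eventually.of_forall fun y _ w _ => ?_
    have h1 : HasDerivAt (fun w : ℂ => Complex.I * w * y) (Complex.I * y) w := by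
      have := ((hasDerivAt_id w).const_mul Complex.I).mul_const (y : ℂ)
      simpa using this
    exact (h1.cexp).const_mul (φ y)

theorem FF_bound {φ : ℝ → ℂ} (hφ : ContDiff ℝ (⊤ : ℕ∞) φ) (hc : HasCompactSupport φ) {R : ℝ}
    (hR : 0 ≤ R) (hφR : φ R = 0) :
    ∃ M : ℝ, 0 ≤ M ∧ ∀ z : ℂ, 0 ≤ z.im → ‖FF φ R z‖ * (1 + ‖z‖) ≤ M := by
  have hφ' : Continuous (deriv φ) := hφ.continuous_deriv (by simp)
  obtain ⟨A, hA⟩ := hc.exists_bound_of_continuous hφ.continuous
  obtain ⟨B, hB⟩ := hc.deriv.exists_bound_of_continuous hφ'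
  have hA0 : 0 ≤ A := (norm_nonneg _).trans (hA 0)
  have hB0 : 0 ≤ B := (norm_nonneg _).trans (hB 0)
  refine ⟨A * R + (A + B * R), by positivity, fun z hz => ?_⟩
  have h1 : ‖FF φ R z‖ ≤ A * |R - 0| := by
    refine intervalIntegral.norm_integral_le_of_norm_le_const fun y hy => ?_
    rw [uIoc_of_le hR] at hy
    rw [norm_mul]
    calc ‖φ y‖ * ‖Complex.exp (Complex.I * z * y)‖ ≤ A * 1 := by
          gcongr
          · exact hA y
          · exact ex_norm hy.1.le hz
      _ = A := mul_one A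
  have h2 : ∫ y in (0 : ℝ)..R, (deriv φ y * Complex.exp (Complex.I * z * y) +
      φ y * (Complex.exp (Complex.I * z * y) * (Complex.I * z))) =
      φ R * Complex.exp (Complex.I * z * R) - φ 0 * Complex.exp (Complex.I * z * (0 : ℝ)) := by
    refine intervalIntegral.integral_eq_sub_of_hasDerivAt (f := fun y : ℝ =>
      φ y * Complex.exp (Complex.I * z * y)) (fun y _ => ?_) ?_
    · have h3 : HasDerivAt φ (deriv φ y) y :=
        (hφ.differentiable (by simp)).differentiableAt.hasDerivAt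
      have h4 : HasDerivAt (fun y : ℝ => Complex.I * z * (y : ℂ)) (Complex.I * z) y := by
        have := (Complex.ofRealCLM.hasDerivAt (x := y)).const_mul (Complex.I * z)
        simpa using this
      exact h3.mul h4.cexp
    · have : Continuous fun y : ℝ => (deriv φ y * Complex.exp (Complex.I * z * y) +
        φ y * (Complex.exp (Complex.I * z * y) * (Complex.I * z))) := by
        have h5 := hφ.continuous
        fun_prop
      exact this.intervalIntegrable _ _
  have h3 : ∫ y in (0 : ℝ)..R, (deriv φ y * Complex.exp (Complex.I * z * y) +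
      φ y * (Complex.exp (Complex.I * z * y) * (Complex.I * z))) =
      (∫ y in (0 : ℝ)..R, deriv φ y * Complex.exp (Complex.I * z * y)) +
        (Complex.I * z) * FF φ R z := by
    rw [intervalIntegral.integral_add]
    · congr 1
      unfold FF
      rw [← intervalIntegral.integral_const_mul]
      refine intervalIntegral.integral_congr fun y _ => ?_
      ring
    · exact (hφ'.mul (ex_cont z)).intervalIntegrable _ _
    · have : Continuous fun y : ℝ => φ y * (Complex.exp (Complex.I * z * y) * (Complex.I * z)) := by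
        have h5 := hφ.continuous
        fun_prop
      exact this.intervalIntegrable _ _
  have h4 : (Complex.I * z) * FF φ R z =
      -φ 0 - ∫ y in (0 : ℝ)..R, deriv φ y * Complex.exp (Complex.I * z * y) := by
    rw [h3, hφR] at h2
    simp only [Complex.ofReal_zero, mul_zero, Complex.exp_zero, mul_one, zero_mul, zero_sub] at h2
    linear_combination h2
  have h5 : ‖∫ y in (0 : ℝ)..R, deriv φ y * Complex.exp (Complex.I * z * y)‖ ≤ B * |R - 0| := by
    refine intervalIntegral.norm_integral_le_of_norm_le_const fun y hy => ?_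
    rw [uIoc_of_le hR] at hy
    rw [norm_mul]
    calc ‖deriv φ y‖ * ‖Complex.exp (Complex.I * z * y)‖ ≤ B * 1 := by
          gcongr
          · exact hB y
          · exact ex_norm hy.1.le hz
      _ = B := mul_one B
  have h6 : ‖z‖ * ‖FF φ R z‖ ≤ A + B * |R - 0| := by
    calc ‖z‖ * ‖FF φ R z‖ = ‖(Complex.I * z) * FF φ R z‖ := by
          rw [norm_mul, norm_mul, Complex.norm_I, one_mul]
      _ ≤ ‖-φ 0‖ + ‖∫ y in (0 : ℝ)..R, deriv φ y * Complex.exp (Complex.I * z * y)‖ := by
          rw [h4]; exact norm_sub_le _ _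
      _ ≤ _ := by
          rw [norm_neg]
          exact add_le_add (hA 0) h5
  rw [sub_zero, abs_of_nonneg hR] at h1 h6
  nlinarith

/-- the class of functions on the upper half plane -/
def HC (g : ℂ → ℂ) : Prop := DifferentiableOn ℂ g {z : ℂ | 0 < z.im} ∧
  ContinuousOn g {z : ℂ | 0 ≤ z.im} ∧ ∃ C : ℝ, ∀ z : ℂ, 0 ≤ z.im → ‖g z‖ ≤ C / (1 + ‖z‖ ^ 2)

theorem HC.add {g h : ℂ → ℂ} (hg : HC g) (hh : HC h) : HC (fun z => g z + h z) := by
  obtain ⟨a1, a2, C, a3⟩ := hg
  obtain ⟨b1, b2, D, b3⟩ := hh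
  refine ⟨a1.add b1, a2.add b2, C + D, fun z hz => ?_⟩
  rw [add_div]
  exact (norm_add_le _ _).trans (add_le_add (a3 z hz) (b3 z hz))

theorem HC.smul {g : ℂ → ℂ} (hg : HC g) (c : ℂ) : HC (fun z => c * g z) := by
  obtain ⟨a1, a2, C, a3⟩ := hg
  refine ⟨a1.const_mul c, a2.const_mul c, ‖c‖ * C, fun z hz => ?_⟩
  rw [norm_mul, mul_div_assoc]
  exact mul_le_mul_of_nonneg_left (a3 z hz) (norm_nonneg _)

theorem HC.cont {g : ℂ → ℂ} (hg : HC g) : Continuous fun x : ℝ => g x :=
  hg.2.1.comp_continuous Complex.continuous_ofReal (fun x => by simp)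

theorem den_sq {ε : ℝ} (hε : 0 ≤ ε) {z : ℂ} (hz : 0 ≤ z.im) :
    1 + (ε * ‖z‖) ^ 2 ≤ ‖1 - Complex.I * ε * z‖ ^ 2 := by
  rw [← Complex.normSq_eq_norm_sq, Complex.normSq_apply, mul_pow, ← Complex.normSq_eq_norm_sq,
    Complex.normSq_apply]
  have h1 : (1 - Complex.I * ε * z).re = 1 + ε * z.im := by simp
  have h2 : (1 - Complex.I * ε * z).im = -(ε * z.re) := by simp
  rw [h1, h2]
  nlinarith [mul_nonneg hε hz]

theorem HC_FF {φ : ℝ → ℂ} (hφ : ContDiff ℝ (⊤ : ℕ∞) φ) (hc : HasCompactSupport φ) {R : ℝ}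
    (hR : 0 ≤ R) (hφR : φ R = 0) {ε : ℝ} (hε : 0 < ε) (hε1 : ε ≤ 1) :
    HC (fun z => FF φ R z / (1 - Complex.I * ε * z)) := by
  have hne : ∀ z : ℂ, 0 ≤ z.im → (1 - Complex.I * ε * z) ≠ 0 := by
    intro z hz h0
    have := den_sq hε.le hz
    rw [h0, norm_zero] at this
    nlinarith [sq_nonneg (ε * ‖z‖)]
  have hd : Differentiable ℂ (FF φ R) := fun z => (FF_deriv hφ.continuous R z).differentiableAt
  have hd2 : Differentiable ℂ (fun z : ℂ => 1 - Complex.I * ε * z) := by fun_prop
  refine ⟨fun z hz => ?_, fun z hz => ?_, ?_⟩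
  · exact ((hd z).div (hd2 z) (hne z (le_of_lt hz))).differentiableWithinAt
  · exact ((hd z).div (hd2 z) (hne z hz)).continuousAt.continuousWithinAt
  · obtain ⟨M, hM0, hM⟩ := FF_bound hφ hc hR hφR
    refine ⟨M / ε, fun z hz => ?_⟩
    have h1 := den_sq hε.le hz
    have h2 := hM z hz
    set D := ‖1 - Complex.I * ε * z‖ with hD
    set t := ‖z‖ with ht
    have ht0 : 0 ≤ t := norm_nonneg _
    have hD0 : 0 ≤ D := norm_nonneg _
    have hD1 : 1 ≤ D := by
      by_contra hcon
      push Not at hcon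
      nlinarith [sq_nonneg (ε * t)]
    have hD2 : ε * t ≤ D := by
      by_contra hcon
      push Not at hcon
      nlinarith [mul_nonneg hε.le ht0]
    rw [norm_div, ← hD, div_div, div_le_div_iff₀ (by linarith) (by positivity)]
    have h3 : ε * (1 + t ^ 2) ≤ (1 + t) * D := by
      nlinarith [mul_le_mul_of_nonneg_left hD2 ht0]
    have h4 : 0 ≤ ‖FF φ R z‖ := norm_nonneg _
    calc ‖FF φ R z‖ * (ε * (1 + t ^ 2)) ≤ ‖FF φ R z‖ * ((1 + t) * D) := by gcongr
      _ = (‖FF φ R z‖ * (1 + t)) * D := by ring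
      _ ≤ M * D := by gcongr

end Pool.Agent.W685.PC
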